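import Pool.Agent.LibGD56.Fin3

/-!
# Closure properties of the class of groups with bijective `K₀(R) → K₀(R[G × ℤⁿ])`

`K₀(R) → K₀(R[G × ℤⁿ])` is bijective for the groups `G` in the smallest class of groups which is
closed under isomorphisms, directed colimits, actions on trees for which the stabilizers of long
periodic segments are in the class `DY R`, actions on acyclic complexes of dimension two for which
the group rings of the stabilizers of the edges and triangles are regular coherent (and Noetherian
for the triangles), extensions by groups whose finitely generated subgroups are hyper-(locally
polycyclic-by-finite), towers, and certain restricted wreath products.  The class `DY R` of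
subgroups contains all subgroups of geometric dimension at most two and is itself closed under
actions of the ambient group on trees and on complexes of dimension two.
-/

namespace Pool.Agent.Results.MP_1a2884_al.ClosureTheorem

open K0GR GD18 GD56

universe u

theorem result :
    -- (1) relative version, for every ring
    (∀ (R : Type u) [Ring R] (𝓑 : ∀ (G : Type) [Group G], Prop), OntoZ R Unit →
      (∀ (G : Type) [Group G], 𝓑 G → OntoZ R G) →
      ∀ (G : Type) [Group G], UY R (DY R) 𝓑 G → AllBij R G) ∧
    -- (2) regular rings
    (∀ (R : Type u) [Ring R], IsRegularRing R → OntoZ R Unit ∧
      ∀ (G : Type) [Group G], UY R (DY R) (fun G _ => Subsingleton G) G → AllBij R G) :=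
  ⟨fun R _ => fin_cls R, fun R _ hR => ⟨fin_unit R hR, fin_reg R hR⟩⟩

end Pool.Agent.Results.MP_1a2884_al.ClosureTheorem
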