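import Pool.Agent.LibDT10.Irr
import Pool.Agent.LibGL55.Fin

/-!
# Torsion free groups with projective representations of degree two

The regular rings `R[C]` are not supposed to be coherent.
-/

namespace Pool.Agent.Results.MP_1a2884_al.DegreeTwo

open K0GR KW

universe u

/-- Let `G` be a torsion free group with a homomorphism with solvable kernel to the group
`PGL(2, S)`, `S` a commutative ring. -/
theorem result (R : Type u) [Ring R] (hR : IsRegularRing R) (G : Type) [Group G]
    (hG : TorsionFree G) (S : Type) [CommRing S] (f : G →* Matrix.ProjGenLinGroup (Fin 2) S)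
    (hf : Group.IsSolvable f.ker) :
    -- (1) positive characteristic
    (∀ m : ℕ, 0 < m → (m : S) = 0 → Bij R G) ∧
    -- (2) characteristic `0`, prime nilradical: reduction to number fields
    (CharZero S → (nilradical S).IsPrime →
      (∀ (Y : Subgroup G) (K : Type) [Field K] [NumberField K]
        (τ : Y →* Matrix.ProjGenLinGroup (Fin 2) K), Group.FG Y → Group.IsSolvable τ.ker →
          Bij R Y) → Bij R G) :=
  ⟨fun _ hm hS => GL55.pgl hR hm hS f hf hG,
    fun _ hS h => DT10.pgl_irr hR hG hS f hf h⟩

end Pool.Agent.Results.MP_1a2884_al.DegreeTwo
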