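import Pool.Agent.LibGD56.Fin3

/-!
# Groups acting on complexes of dimension two

`K₀(R) → K₀(R[G])` is bijective for regular rings `R` and groups `G` which act freely on a
contractible complex of dimension two, more generally for groups which act on a product of trees
such that the stabilizers of the vertices act freely on contractible complexes of dimension two.
For actions with stabilizers on complexes of dimension two and arbitrary rings `K₀(R[G])`
is generated by the images of the groups `K₀(R[G_v])`, if the rings `R[G_e]` are regular coherent
for the edges and triangles, and moreover Noetherian for the triangles.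
-/

namespace Pool.Agent.Results.MP_1a2884_al.DimensionTwo

open K0GR GD18 GD56 MulAction TP96

universe u

theorem result (R : Type u) [Ring R] :
    -- (1) regular rings, groups of geometric dimension at most 2 (groups with an aspherical presentation)
    (IsRegularRing R → ∀ P : TPres, P.Aspherical → AllBij R P.Grp) ∧
    -- (2) actions on complexes of dimension two: the stabilizers of the vertices are arbitrary
    (∀ (G : Type) [Group G] (X : Cx2) [GAct G X], X.Acyc → X.FA →
      (∀ x : X.T, RCN R (stabilizer G x)) → (∀ e : X.E, RC R (stabilizer G e)) → GenV R G X) ∧
    -- (3) closure under actions on complexes of dimension two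
    (∀ (G : Type) [Group G] (X : Cx2) [GAct G X], X.Acyc → X.FA →
      (∀ x : X.T, RCNZ R (stabilizer G x)) → (∀ e : X.E, RCZ R (stabilizer G e)) →
      (∀ v : X.V, OntoZ R (stabilizer G v)) → AllBij R G) ∧
    -- (4) regular rings, actions on products of trees with stabilizers of the vertices which act
    -- freely on complexes of dimension two
    (IsRegularRing R → ∀ (G : Type) [Group G] (k : ℕ) (V : Fin k → Type) [∀ i, MulAction G (V i)]
      (T : ∀ i, SimpleGraph (V i)), (∀ i, TreeAct (T i) G) →
      (∀ v : ∀ i, V i, Tz (⨅ i, stabilizer G (v i))) → AllBij R G) ∧
    -- (5) contractible complexes of dimension two satisfy the hypotheses on `X`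
    (∀ X : Cx2, X.Contr → X.Acyc ∧ X.FA) :=
  ⟨fun hR => fin_pres R hR, fun G _ X _ => fin_gen R G X, fun G _ X _ => fin_clo R G X,
    fun hR G _ k V _ T => fin_prod R hR G k V T, fin_contr⟩

end Pool.Agent.Results.MP_1a2884_al.DimensionTwo
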