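import Pool.Agent.LibGD56.Fin3
import Pool.Agent.LibTW55.Fin
import Pool.Agent.LibGL55.Fin

/-!
# Groups which act on products of trees, groups of `2 × 2` matrices

The regular rings `R[C]` are not supposed to be coherent.
-/

namespace Pool.Agent.Results.MP_1a2884_al.TreeProducts

open K0GR KW TW55 GD56

universe u

theorem result (R : Type u) [Ring R] (hR : IsRegularRing R) (G : Type) [Group G] :
    -- (1) groups which act on products of trees
    (∀ (p : G →* (ℝ ≃o ℝ)) (V₀ : Type) [MulAction G V₀] (T₀ : SimpleGraph V₀) (r : ℕ)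
      (V : Fin r → Type) [∀ i, MulAction G (V i)] (T : ∀ i, SimpleGraph (V i)),
      TrY p R T₀ T → Bij R G) ∧
    -- (2) torsion free groups of `2 × 2` matrices over a domain `S` such that all finitely generated
    -- subrings of `S` have homomorphisms to `ℚ`
    (∀ (S : Type) [CommRing S] [IsDomain S] (f : G →* Matrix.GeneralLinearGroup (Fin 2) S),
      (∀ s : Finset S, Nonempty (Subring.closure (s : Set S) →+* ℚ)) → Function.Injective f →
      TorsionFree G → Bij R G) ∧
    -- (3) fields of rational functions over `ℚ` are such domains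
    ∀ (I : Type) (s : Finset (FractionRing (MvPolynomial I ℚ))),
      Nonempty (Subring.closure (s : Set (FractionRing (MvPolynomial I ℚ))) →+* ℚ) :=
  ⟨fun _ _ _ _ _ _ _ _ => TrY.bij hR (hdCx R) (hdGd R),
    fun _ _ _ f hS hf ht => GL55.gl hR hS f hf ht, GL55.rat_fun⟩

end Pool.Agent.Results.MP_1a2884_al.TreeProducts
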